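import Pool.Agent.Helper74.SS.P.I3

/-!
The 2-complex `XX R` of a presentation as a CW complex on the whole space, with the numbers of cells.
-/

set_option autoImplicit false

open Set Metric Filter Topology

namespace Pool.Agent.Helper18.OWN

open Pool.Agent.Helper74.SS

section

variable {ι κ : Type} [Fintype ι] [DecidableEq ι] [Fintype κ] [DecidableEq κ]

omit [Fintype ι] [Fintype κ] in
theorem zero_mem_XX (R : κ → Wd ι) : (0 : Amb ι κ) ∈ XX R := Or.inl (Or.inl rfl)

/-- the values on the closed ball are in the complex -/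
theorem fun_mem (R : κ → Wd ι) (u : (Fin 2 → ℝ) → ℝ)
    (hu0 : ∀ z, u z ∈ Ico (0 : ℝ) 1) :
    ∀ (n : ℕ) (i : cell_I3 ι κ n) (z : Fin n → ℝ), z ∈ closedBall (0 : Fin n → ℝ) 1 →
      fun_I3 R u n i z ∈ XX R
  | 0, _, _, _ => zero_mem_XX R
  | 1, i, _, _ => Or.inl (Or.inr ⟨i, _, rfl⟩)
  | 2, j, z, hz => Or.inr ⟨j, ‖z‖, ⟨norm_nonneg _, mem_closedBall_zero_iff.1 hz⟩, u z,
      ⟨(hu0 z).1, (hu0 z).2.le⟩, rfl⟩
  | (_ + 3), e, _, _ => (show Empty from e).elim

open Classical in
/-- the characteristic maps with values in the complex -/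
noncomputable def fun' (R : κ → Wd ι) (u : (Fin 2 → ℝ) → ℝ) (n : ℕ) (i : cell_I3 ι κ n)
    (z : Fin n → ℝ) : ↥(XX R) :=
  if h : fun_I3 R u n i z ∈ XX R then ⟨fun_I3 R u n i z, h⟩ else ⟨0, zero_mem_XX R⟩

theorem fun'_val (R : κ → Wd ι) (u : (Fin 2 → ℝ) → ℝ)
    (hu0 : ∀ z, u z ∈ Ico (0 : ℝ) 1) (n : ℕ) (i : cell_I3 ι κ n) (z : Fin n → ℝ)
    (hz : z ∈ closedBall (0 : Fin n → ℝ) 1) :
    (fun' R u n i z : Amb ι κ) = fun_I3 R u n i z := by
  unfold fun'
  rw [dif_pos (fun_mem R u hu0 n i z hz)]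

theorem cw_univ (hI1 : StI1) (hI2 : StI2) (h1 : StC1) (h2 : StC2) (R : κ → Wd ι) :
    ∃ (_ : Topology.CWComplex (univ : Set ↥(XX R))), ∀ n : ℕ,
      Nonempty (Topology.CWComplex.cell (univ : Set ↥(XX R)) n ≃ cell_I3 ι κ n) := by
  obtain ⟨u, hu0, hu1, hu2, hu3⟩ := hI2
  have hv : ∀ (n : ℕ) (i : cell_I3 ι κ n) (z : Fin n → ℝ), z ∈ closedBall (0 : Fin n → ℝ) 1 →
      (fun' R u n i z : Amb ι κ) = fun_I3 R u n i z := fun n i z hz =>
    fun'_val R u hu0 n i z hz
  have hcont : ∀ n (i : cell_I3 ι κ n), ContinuousOn (fun' R u n i) (closedBall 0 1) := by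
    intro n i
    rw [IsInducing.subtypeVal.continuousOn_iff]
    refine (cont_I3 h1 h2 R u hu3 n i).congr fun z hz => ?_
    exact hv n i z hz
  have hex : ∀ n (i : cell_I3 ι κ n), ∃ e : PartialEquiv (Fin n → ℝ) ↥(XX R),
      (∀ x, e x = fun' R u n i x) ∧ e.source = ball 0 1 ∧ ContinuousOn e.symm e.target := by
    intro n i
    refine hI1 n ↥(XX R) (fun' R u n i) (hcont n i) ?_ ?_
    · intro z hz z' hz' h
      refine inj_I3 h1 h2 R u hu0 hu1 n i hz hz' ?_
      rw [← hv n i z (ball_subset_closedBall hz), ← hv n i z' (ball_subset_closedBall hz'), h]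
    · intro x hx y hy h
      refine sep_I3 h1 h2 R u hu0 n i x hx y hy ?_
      rw [← hv n i x (ball_subset_closedBall hx), ← hv n i y (sphere_subset_closedBall hy), h]
  choose e he hes het using hex
  have hfun : ∀ n i, (e n i : (Fin n → ℝ) → ↥(XX R)) = fun' R u n i := fun n i =>
    funext (he n i)
  obtain ⟨-, -, -, hcel1, hcel0, hcel01, -⟩ := h2 ι κ R
  have hfin : ∀ n, Finite (cell_I3 ι κ n) := by
    intro n
    match n with
    | 0 => exact inferInstanceAs (Finite Unit)
    | 1 => exact inferInstanceAs (Finite ι)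
    | 2 => exact inferInstanceAs (Finite κ)
    | (_ + 3) => exact inferInstanceAs (Finite Empty)
  have hemp : ∀ n, 2 < n → IsEmpty (cell_I3 ι κ n) := by
    intro n hn
    match n, hn with
    | (_ + 3), _ => exact inferInstanceAs (IsEmpty Empty)
  refine ⟨Topology.CWComplex.mkFinite (univ : Set ↥(XX R)) (cell_I3 ι κ) e ?_ hfin hes ?_ het
    ?_ ?_ ?_, fun n => ⟨Equiv.refl _⟩⟩
  · rw [eventually_atTop]
    exact ⟨3, fun n hn => hemp n hn⟩
  · intro n i
    rw [hfun]
    exact hcont n i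
  · rintro ⟨n, i⟩ _ ⟨m, j⟩ _ hne
    rw [Function.onFun, Set.disjoint_left]
    rintro _ ⟨x, hx, rfl⟩ ⟨y, hy, hxy⟩
    simp only [he] at hxy
    refine hne (disj_I3 h1 h2 R u n m i j x y hx hy ?_)
    have hxy' := congrArg (fun p : ↥(XX R) => (p : Amb ι κ)) hxy
    rw [hv m j y (ball_subset_closedBall hy), hv n i x (ball_subset_closedBall hx)] at hxy'
    exact hxy'.symm
  · intro n i
    match n, i with
    | 0, i =>
      intro y hy
      rw [mem_sphere_zero_iff_norm, Subsingleton.elim y 0, norm_zero] at hy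
      exact absurd hy zero_ne_one
    | 1, i =>
      intro y hy
      have hy2 := sphere_subset_closedBall hy
      rw [mem_sphere_zero_iff_norm, norm1_I3] at hy
      simp only [mem_iUnion]
      refine ⟨0, by norm_num, (show cell_I3 ι κ 0 from ()), 0, by simp, ?_⟩
      rw [he, he]
      apply Subtype.ext
      rw [hv 0 _ 0 (by simp), hv 1 i y hy2]
      refine (wpt_zero_I3 h1 _ _ ?_).symm
      rcases eq_or_eq_neg_of_abs_eq hy with h | h
      · exact ⟨1, by rw [h]; norm_num⟩
      · exact ⟨0, by rw [h]; norm_num⟩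
    | 2, i =>
      intro y hy
      have hy2 := sphere_subset_closedBall hy
      rw [mem_sphere_zero_iff_norm] at hy
      rw [he]
      have hW : fun_I3 R u 2 i y ∈ WW ι κ := by
        show cel R (show κ from i) ‖y‖ (u y) ∈ WW ι κ
        rw [hy, hcel1]
        exact (h1.2.2.2.2.2.2.2 ι κ (R i)).2.2.2 (u y)
      obtain ⟨m, hm, j, z, hz, hj⟩ := WW_cells_I3 h1 R u _ hW
      simp only [mem_iUnion]
      refine ⟨m, hm, j, z, hz, ?_⟩
      rw [he]
      apply Subtype.ext
      rw [hv m j z hz, hv 2 i y hy2]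
      exact hj
    | (_ + 3), i => exact (show Empty from i).elim
  · apply Set.Subset.antisymm
    · intro x hx
      exact mem_univ x
    · rintro ⟨x, hx'⟩ -
      simp only [mem_iUnion]
      rcases hx' with hx | ⟨j, ρ, hρ, t, ht, hxe⟩
      · obtain ⟨m, _, j, z, hz, hj⟩ := WW_cells_I3 h1 R u x hx
        refine ⟨m, j, z, hz, ?_⟩
        rw [he]
        apply Subtype.ext
        rw [hv m j z hz]
        exact hj
      · refine ⟨2, (show cell_I3 ι κ 2 from j), ?_⟩
        rcases hρ.1.eq_or_lt with h0 | h0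
        · refine ⟨0, by simp, ?_⟩
          rw [he]
          apply Subtype.ext
          rw [hv 2 _ 0 (by simp)]
          show cel R j ‖(0 : Fin 2 → ℝ)‖ (u 0) = x
          rw [norm_zero, hxe, ← h0, hcel0 j t, hcel0 j (u 0)]
        · rcases ht.2.eq_or_lt with h3 | h3
          · obtain ⟨z, hz1, hz2⟩ := hu2 ρ ⟨h0, hρ.2⟩ 0 ⟨le_rfl, zero_lt_one⟩
            have hz : z ∈ closedBall (0 : Fin 2 → ℝ) 1 := by
              rw [mem_closedBall_zero_iff, hz1]
              exact hρ.2
            refine ⟨z, hz, ?_⟩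
            rw [he]
            apply Subtype.ext
            rw [hv 2 _ z hz]
            show cel R j ‖z‖ (u z) = x
            rw [hz1, hz2, hxe, h3, hcel01]
          · obtain ⟨z, hz1, hz2⟩ := hu2 ρ ⟨h0, hρ.2⟩ t ⟨ht.1, h3⟩
            have hz : z ∈ closedBall (0 : Fin 2 → ℝ) 1 := by
              rw [mem_closedBall_zero_iff, hz1]
              exact hρ.2
            refine ⟨z, hz, ?_⟩
            rw [he]
            apply Subtype.ext
            rw [hv 2 _ z hz]
            show cel R j ‖z‖ (u z) = x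
            rw [hz1, hz2, hxe]

end

end Pool.Agent.Helper18.OWN
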