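import Pool.Agent.Helper18.OWN.W

/-!
The collar of the base points in a finite disjoint union of 2-spheres, and the independence of the
one-point union of the base points of the spheres.
-/

set_option autoImplicit false

open Set Topology

namespace Pool.Agent.Helper18.OWN

/-- the unit sphere of the euclidean space of dimension 3 -/
abbrev S2 : Type := ↥(Metric.sphere (0 : EuclideanSpace ℝ (Fin 3)) 1)

variable {n : ℕ}

/-- the base points of the spheres -/
def As (s : Fin n → S2) : Set (Fin n × S2) := {p | p.2 = s p.1}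

/-- inner product with the base point -/
noncomputable def ip (s : Fin n → S2) (p : Fin n × S2) : ℝ :=
  inner ℝ ((s p.1 : S2) : EuclideanSpace ℝ (Fin 3)) (p.2 : EuclideanSpace ℝ (Fin 3))

theorem nS (x : S2) : ‖(x : EuclideanSpace ℝ (Fin 3))‖ = 1 := mem_sphere_zero_iff_norm.1 x.2

theorem ip_cont (s : Fin n → S2) : Continuous (ip s) := by
  unfold ip
  refine Continuous.inner ?_ (continuous_subtype_val.comp continuous_snd)
  exact continuous_subtype_val.comp ((continuous_of_discreteTopology (f := s)).comp continuous_fst)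

/-- the vector before normalization -/
noncomputable def vv (s : Fin n → S2) (q : unitInterval × (Fin n × S2)) :
    EuclideanSpace ℝ (Fin 3) :=
  (1 - (q.1 : ℝ) + 2 * (q.1 : ℝ) * max 0 (-(ip s q.2))) • (q.2.2 : EuclideanSpace ℝ (Fin 3)) +
    (q.1 : ℝ) • ((s q.2.1 : S2) : EuclideanSpace ℝ (Fin 3))

theorem vv_cont (s : Fin n → S2) : Continuous (vv s) := by
  have h1 : Continuous fun q : unitInterval × (Fin n × S2) => (q.1 : ℝ) :=
    continuous_subtype_val.comp continuous_fst
  have h2 : Continuous fun q : unitInterval × (Fin n × S2) => ip s q.2 :=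
    (ip_cont s).comp continuous_snd
  have h3 : Continuous fun q : unitInterval × (Fin n × S2) =>
      (q.2.2 : EuclideanSpace ℝ (Fin 3)) :=
    continuous_subtype_val.comp (continuous_snd.comp continuous_snd)
  have h4 : Continuous fun q : unitInterval × (Fin n × S2) =>
      ((s q.2.1 : S2) : EuclideanSpace ℝ (Fin 3)) :=
    continuous_subtype_val.comp ((continuous_of_discreteTopology (f := s)).comp
      (continuous_fst.comp continuous_snd))
  unfold vv
  exact ((((continuous_const.sub h1).add ((continuous_const.mul h1).mul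
    (continuous_const.max h2.neg)))).smul h3).add (h1.smul h4)

theorem vv_ne (s : Fin n → S2) (q : unitInterval × (Fin n × S2)) : vv s q ≠ 0 := by
  intro h
  obtain ⟨⟨t, ht0, ht1⟩, i, x⟩ := q
  set c : ℝ := ip s (i, x) with hc
  have hx : inner ℝ (x : EuclideanSpace ℝ (Fin 3)) (x : EuclideanSpace ℝ (Fin 3)) = (1 : ℝ) := by
    rw [real_inner_self_eq_norm_sq, nS, one_pow]
  have hs : inner ℝ ((s i : S2) : EuclideanSpace ℝ (Fin 3))
      ((s i : S2) : EuclideanSpace ℝ (Fin 3)) = (1 : ℝ) := by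
    rw [real_inner_self_eq_norm_sq, nS, one_pow]
  have h' : (1 - t + 2 * t * max 0 (-c)) • (x : EuclideanSpace ℝ (Fin 3)) +
    t • ((s i : S2) : EuclideanSpace ℝ (Fin 3)) = 0 := h
  have e1 : (1 - t + 2 * t * max 0 (-c)) + t * c = 0 := by
    have := congrArg (fun v => inner ℝ (x : EuclideanSpace ℝ (Fin 3)) v) h'
    simp only [inner_add_right, inner_smul_right, inner_zero_right] at this
    rw [hx, mul_one, real_inner_comm] at this
    exact this
  have e2 : (1 - t + 2 * t * max 0 (-c)) * c + t = 0 := by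
    have := congrArg (fun v => inner ℝ ((s i : S2) : EuclideanSpace ℝ (Fin 3)) v) h'
    simp only [inner_add_right, inner_smul_right, inner_zero_right] at this
    rw [hs, mul_one] at this
    exact this
  rcases le_total 0 c with h0 | h0
  · rw [max_eq_left (by linarith : -c ≤ 0)] at e1 e2
    nlinarith [mul_nonneg ht0 h0]
  · rw [max_eq_right (by linarith : 0 ≤ -c)] at e1 e2
    have hm : 0 ≤ t * (-c) := mul_nonneg ht0 (by linarith)
    have ht : t = 1 := by nlinarith
    subst ht
    have hc0 : c = 0 := by linarith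
    rw [hc0] at e2
    norm_num at e2

/-- the homotopy -/
noncomputable def th (s : Fin n → S2) (q : unitInterval × (Fin n × S2)) : Fin n × S2 :=
  (q.2.1, ⟨‖vv s q‖⁻¹ • vv s q, by
    rw [mem_sphere_zero_iff_norm, norm_smul, norm_inv, norm_norm,
      inv_mul_cancel₀ (norm_ne_zero_iff.2 (vv_ne s q))]⟩)

theorem th_cont (s : Fin n → S2) : Continuous (th s) := by
  unfold th
  refine (continuous_fst.comp continuous_snd).prodMk (Continuous.subtype_mk ?_ _)
  exact ((vv_cont s).norm.inv₀ fun q => norm_ne_zero_iff.2 (vv_ne s q)).smul (vv_cont s)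

theorem ip_As (s : Fin n → S2) (p : Fin n × S2) (hp : p ∈ As s) : ip s p = 1 := by
  have h : p.2 = s p.1 := hp
  unfold ip
  rw [h, real_inner_self_eq_norm_sq, nS, one_pow]

theorem th_of (s : Fin n → S2) (q : unitInterval × (Fin n × S2)) (y : S2)
    (h : vv s q = (y : EuclideanSpace ℝ (Fin 3))) : th s q = (q.2.1, y) := by
  unfold th
  refine Prod.ext rfl (Subtype.ext ?_)
  show ‖vv s q‖⁻¹ • vv s q = y
  rw [h, nS, inv_one, one_smul]

/-- the collar -/
noncomputable def collar (s : Fin n → S2) : Collar (As s) where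
  u p := (1 - ip s p) / 2
  cu := (continuous_const.sub (ip_cont s)).div_const 2
  u0 p hp := by rw [ip_As s p hp, sub_self, zero_div]
  θ := th s
  cθ := th_cont s
  θ0 p := by
    refine th_of s _ p.2 ?_
    unfold vv
    simp
  θA t p hp := by
    have h : p.2 = s p.1 := hp
    have e : th s (t, p) = (p.1, s p.1) := by
      refine th_of s _ _ ?_
      unfold vv
      show (1 - (t : ℝ) + 2 * (t : ℝ) * max 0 (-(ip s p))) • (p.2 : EuclideanSpace ℝ (Fin 3)) +
        (t : ℝ) • ((s p.1 : S2) : EuclideanSpace ℝ (Fin 3)) = _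
      rw [ip_As s p hp, max_eq_left (by norm_num), mul_zero, add_zero, h, ← add_smul,
        sub_add_cancel, one_smul]
    rw [e]
    rfl
  θ1 p hp := by
    have h : 0 ≤ ip s p := by linarith
    have e : th s (1, p) = (p.1, s p.1) := by
      refine th_of s _ _ ?_
      unfold vv
      show (1 - ((1 : unitInterval) : ℝ) + 2 * ((1 : unitInterval) : ℝ) * max 0 (-(ip s p))) •
        (p.2 : EuclideanSpace ℝ (Fin 3)) +
        ((1 : unitInterval) : ℝ) • ((s p.1 : S2) : EuclideanSpace ℝ (Fin 3)) = _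
      rw [max_eq_left (by linarith), mul_zero, add_zero, Set.Icc.coe_one, sub_self, zero_smul,
        zero_add, one_smul]
    rw [e]
    rfl

/-- rotations of the sphere -/
theorem exists_rot (a b : S2) : ∃ φ : S2 ≃ₜ S2, φ a = b := by
  have hn : ‖(a : EuclideanSpace ℝ (Fin 3))‖ = ‖(b : EuclideanSpace ℝ (Fin 3))‖ := by
    rw [nS, nS]
  let F := (ℝ ∙ ((a : EuclideanSpace ℝ (Fin 3)) - b))ᗮ.reflection
  have hF : F (a : EuclideanSpace ℝ (Fin 3)) = b := Submodule.reflection_sub hn
  have hm : ∀ x : S2, F (x : EuclideanSpace ℝ (Fin 3)) ∈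
      Metric.sphere (0 : EuclideanSpace ℝ (Fin 3)) 1 := fun x => by
    rw [mem_sphere_zero_iff_norm, F.norm_map, nS]
  have hi : ∀ x, F (F x) = x := fun x => Submodule.reflection_reflection _ x
  have hc : Continuous fun x : S2 => (⟨F x, hm x⟩ : S2) :=
    (F.continuous.comp continuous_subtype_val).subtype_mk _
  refine ⟨⟨⟨fun x => ⟨F x, hm x⟩, fun x => ⟨F x, hm x⟩, fun x => ?_, fun x => ?_⟩, hc, hc⟩, ?_⟩
  · exact Subtype.ext (hi x)
  · exact Subtype.ext (hi x)
  · exact Subtype.ext hF

/-- a homeomorphism of pairs induces a homeomorphism of the quotients -/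
theorem Wq_homeo {X X' Y Y' : Type} [TopologicalSpace X] [TopologicalSpace X']
    [TopologicalSpace Y] [TopologicalSpace Y'] (ψ : X ≃ₜ X') (φ : Y ≃ₜ Y') (x : X) (A : Set Y)
    (A' : Set Y') (h : ∀ y, φ y ∈ A' ↔ y ∈ A) :
    Nonempty (Wq X Y x A ≃ₜ Wq X' Y' (ψ x) A') := by
  have h1 : ∀ y ∈ A, (Quot.mk _ (Sum.inl (ψ x)) : Wq X' Y' (ψ x) A') =
      Quot.mk _ (Sum.inr (φ y)) := fun y hy => W_sound ((h y).2 hy)
  have h2 : ∀ y ∈ A', (Quot.mk _ (Sum.inl (ψ.symm (ψ x))) : Wq X Y x A) =
      Quot.mk _ (Sum.inr (φ.symm y)) := fun y hy => by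
    rw [ψ.symm_apply_apply]
    refine W_sound ((h _).1 ?_)
    rwa [φ.apply_symm_apply]
  let F : C(Wq X Y x A, Wq X' Y' (ψ x) A') := W_map (fun a => Quot.mk _ (Sum.inl (ψ a)))
    (fun y => Quot.mk _ (Sum.inr (φ y))) h1
    (continuous_quot_mk.comp (continuous_inl.comp ψ.continuous))
    (continuous_quot_mk.comp (continuous_inr.comp φ.continuous))
  let G : C(Wq X' Y' (ψ x) A', Wq X Y x A) := W_map (fun a => Quot.mk _ (Sum.inl (ψ.symm a)))
    (fun y => Quot.mk _ (Sum.inr (φ.symm y))) h2
    (continuous_quot_mk.comp (continuous_inl.comp ψ.symm.continuous))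
    (continuous_quot_mk.comp (continuous_inr.comp φ.symm.continuous))
  refine ⟨⟨⟨F, G, ?_, ?_⟩, F.continuous, G.continuous⟩⟩
  · rintro ⟨a | b⟩
    · show (Quot.mk _ (Sum.inl (ψ.symm (ψ a))) : Wq X Y x A) = Quot.mk _ (Sum.inl a)
      rw [ψ.symm_apply_apply]
    · show (Quot.mk _ (Sum.inr (φ.symm (φ b))) : Wq X Y x A) = Quot.mk _ (Sum.inr b)
      rw [φ.symm_apply_apply]
  · rintro ⟨a | b⟩
    · show (Quot.mk _ (Sum.inl (ψ (ψ.symm a))) : Wq X' Y' (ψ x) A') = Quot.mk _ (Sum.inl a)
      rw [ψ.apply_symm_apply]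
    · show (Quot.mk _ (Sum.inr (φ (φ.symm b))) : Wq X' Y' (ψ x) A') = Quot.mk _ (Sum.inr b)
      rw [φ.apply_symm_apply]

/-- independence of the base points of the spheres -/
theorem Wq_sph {X : Type} [TopologicalSpace X] (x : X) (s s' : Fin n → S2) :
    Nonempty (Wq X (Fin n × S2) x (As s) ≃ₜ Wq X (Fin n × S2) x (As s')) := by
  choose φ hφ using fun i => exists_rot (s i) (s' i)
  have c1 : Continuous fun p : Fin n × S2 => φ p.1 p.2 :=
    continuous_prod_of_discrete_left.2 fun i => (φ i).continuous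
  have c2 : Continuous fun p : Fin n × S2 => (φ p.1).symm p.2 :=
    continuous_prod_of_discrete_left.2 fun i => (φ i).symm.continuous
  let Φ : Fin n × S2 ≃ₜ Fin n × S2 :=
    ⟨⟨fun p => (p.1, φ p.1 p.2), fun p => (p.1, (φ p.1).symm p.2),
      fun p => Prod.ext rfl ((φ p.1).symm_apply_apply p.2),
      fun p => Prod.ext rfl ((φ p.1).apply_symm_apply p.2)⟩,
      continuous_fst.prodMk c1, continuous_fst.prodMk c2⟩
  refine Wq_homeo (Homeomorph.refl X) Φ x (As s) (As s') fun p => ?_
  show φ p.1 p.2 = s' p.1 ↔ p.2 = s p.1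
  rw [← hφ p.1]
  exact (φ p.1).injective.eq_iff

/-- The one-point union with `n` spheres is a homotopy invariant, for all base points. -/
theorem wedge_inv {X X' : Type} [TopologicalSpace X] [TopologicalSpace X']
    [PathConnectedSpace X'] (e : ContinuousMap.HomotopyEquiv X X') (x : X) (x' : X')
    (s s' : Fin n → S2) :
    Nonempty (ContinuousMap.HomotopyEquiv (Wq X (Fin n × S2) x (As s))
      (Wq X' (Fin n × S2) x' (As s'))) := by
  obtain ⟨a⟩ := wedge_congr (collar s) e x x' (PathConnectedSpace.joined _ _)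
  obtain ⟨b⟩ := Wq_sph x' s s'
  exact ⟨a.trans b.toHomotopyEquiv⟩

end Pool.Agent.Helper18.OWN
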