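import Pool.Agent.Helper74.SS.All
import Pool.Agent.Helper18.OWN.Sph
import Pool.Agent.Helper18.OWN.Cw

/-!
The exact number of spheres needed: for the two 2-complexes `XX RK`, `XX RL` of project SS the one-point
unions with `n` spheres are homotopy equivalent if and only if `2 ≤ n`.
-/

set_option autoImplicit false

open Set Metric Filter Topology

namespace Pool.Agent.Helper18.OWN

open Pool.Agent.Helper74.SS (XX Wd Amb Rl Gn RK RL RKs RLs cell_I3 sph_J)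

section

variable {ι κ : Type} [Fintype ι] [DecidableEq ι] [Fintype κ] [DecidableEq κ]

/-- `n` empty words -/
def emp (ι : Type) (n : ℕ) : Fin n → Wd ι := fun _ => []

theorem pathConn (R : κ → Wd ι) : PathConnectedSpace ↥(XX R) := by
  rw [← isPathConnected_iff_pathConnectedSpace]
  obtain ⟨-, -, hpath⟩ := Pool.Agent.Helper74.SS.tC5 ι κ R
  refine ⟨0, zero_mem_XX R, fun {y} hy => ?_⟩
  obtain ⟨γ, ⟨hγc, hγm⟩, hγ0, hγ1⟩ := hpath y hy
  exact JoinedIn.ofLine hγc hγ0 hγ1 (image_subset_iff.2 hγm)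

/-- the south pole -/
noncomputable def sp : S2 := ⟨!₂[0, 0, -1], by
  rw [mem_sphere_zero_iff_norm, EuclideanSpace.norm_eq]
  simp [Fin.sum_univ_three]⟩

/-- the one-point union with `n` spheres is the complex with `n` more empty relators -/
theorem wedge_XX (R : κ → Wd ι) (n : ℕ) :
    Nonempty (Wq ↥(XX R) (Fin n × S2) ⟨0, zero_mem_XX R⟩ (As fun _ => sp) ≃ₜ
      ↥(XX (Sum.elim R (emp ι n)))) := by
  refine Pool.Agent.Helper74.SS.wedge_J (κ' := Fin n) Pool.Agent.Helper74.SS.tC1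
    Pool.Agent.Helper74.SS.tC2 R (fun p : Fin n × S2 => p.1) (fun p => p.2) ?_ ?_ ?_
    ⟨0, zero_mem_XX R⟩ sp rfl rfl _ ?_ ?_
  · refine continuous_prod_of_discrete_left.2 fun i => ?_
    exact (continuous_single (A := fun _ : κ ⊕ Fin n => ℂ × ℝ) (Sum.inr i)).comp
      Pool.Agent.Helper74.SS.continuous_sph_J
  · intro a b h1 h2
    exact Prod.ext h1 h2
  · intro k s
    exact ⟨(k, s), rfl, rfl⟩
  · rintro a b ⟨rfl, y, hy, rfl⟩
    exact ⟨rfl, y, rfl, hy⟩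
  · intro c hc
    exact ⟨rfl, c, hc, rfl⟩

/-- all base points -/
theorem wedge_all {ι' κ' : Type} [Fintype ι'] [DecidableEq ι'] [Fintype κ'] [DecidableEq κ']
    (R : κ → Wd ι) (R' : κ' → Wd ι') (n : ℕ) (k : ↥(XX R)) (l : ↥(XX R')) (s t : Fin n → S2) :
    Nonempty (ContinuousMap.HomotopyEquiv (Wq ↥(XX R) (Fin n × S2) k (As s))
      (Wq ↥(XX R') (Fin n × S2) l (As t))) ↔
    Nonempty (ContinuousMap.HomotopyEquiv ↥(XX (Sum.elim R (emp ι n)))
      ↥(XX (Sum.elim R' (emp ι' n)))) := by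
  have := pathConn R
  have := pathConn R'
  obtain ⟨a⟩ := wedge_inv (ContinuousMap.HomotopyEquiv.refl ↥(XX R)) k
    ⟨0, zero_mem_XX R⟩ s (fun _ => sp)
  obtain ⟨b⟩ := wedge_inv (ContinuousMap.HomotopyEquiv.refl ↥(XX R')) l
    ⟨0, zero_mem_XX R'⟩ t (fun _ => sp)
  obtain ⟨c⟩ := wedge_XX R n
  obtain ⟨d⟩ := wedge_XX R' n
  constructor
  · rintro ⟨e⟩
    exact ⟨(((c.symm.toHomotopyEquiv.trans a.symm).trans e).trans b).trans d.toHomotopyEquiv⟩
  · rintro ⟨e⟩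
    exact ⟨(((a.trans c.toHomotopyEquiv).trans e).trans d.symm.toHomotopyEquiv).trans b.symm⟩

end

/-- one sphere is not enough -/
theorem neg1 : ¬ Nonempty (ContinuousMap.HomotopyEquiv ↥(XX RKs) ↥(XX RLs)) := by
  rintro h
  have hcK : IsCompact (XX RKs) := (Pool.Agent.Helper74.SS.tC2 Gn (Rl ⊕ Unit) RKs).2.1
  have hcL : IsCompact (XX RLs) := (Pool.Agent.Helper74.SS.tC2 Gn (Rl ⊕ Unit) RLs).2.1
  obtain ⟨F, G, p, q, hHE⟩ := Pool.Agent.Helper74.SS.tK1 _ _ (XX RKs) (XX RLs) hcK hcL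
    ⟨0, Or.inl (Or.inl rfl)⟩ h
  obtain ⟨g, hg⟩ := Pool.Agent.Helper74.SS.tC Gn (Rl ⊕ Unit) RKs
  obtain ⟨g', hg'⟩ := Pool.Agent.Helper74.SS.tC Gn (Rl ⊕ Unit) RLs
  rw [← hg, ← hg'] at hHE
  exact Pool.Agent.Helper74.SS.tNeg
    (Pool.Agent.Helper74.SS.tF _ _ _ _ _ _ RKs RLs g g' F G p q hHE)

/-- change of the index set of the empty relators -/
theorem reindex {ι κ κ₁ κ₂ : Type} [Fintype ι] [DecidableEq ι] [Fintype κ] [DecidableEq κ]
    [Fintype κ₁] [DecidableEq κ₁] [Fintype κ₂] [DecidableEq κ₂] (R : κ → Wd ι) (e : κ₁ ≃ κ₂) :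
    Nonempty (↥(XX (Sum.elim R (fun _ : κ₁ => ([] : Wd ι)))) ≃ₜ
      ↥(XX (Sum.elim R (fun _ : κ₂ => ([] : Wd ι))))) := by
  refine Pool.Agent.Helper74.SS.tJ7 ι (κ ⊕ κ₁) (κ ⊕ κ₂) _ _ (Equiv.sumCongr (Equiv.refl κ) e)
    fun j => ?_
  rcases j with j | j <;> rfl

/-- no sphere and one sphere are not enough -/
theorem neg01 (n : ℕ) (hn : n < 2)
    (h : Nonempty (ContinuousMap.HomotopyEquiv ↥(XX (Sum.elim RK (emp Gn n)))
      ↥(XX (Sum.elim RL (emp Gn n))))) : False := by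
  have one : ¬ Nonempty (ContinuousMap.HomotopyEquiv ↥(XX (Sum.elim RK (emp Gn 1)))
      ↥(XX (Sum.elim RL (emp Gn 1)))) := by
    rintro ⟨e⟩
    obtain ⟨a⟩ := reindex RK finOneEquiv
    obtain ⟨b⟩ := reindex RL finOneEquiv
    exact neg1 ⟨(a.symm.toHomotopyEquiv.trans e).trans b.toHomotopyEquiv⟩
  interval_cases n
  · obtain ⟨e⟩ := h
    obtain ⟨a⟩ := Pool.Agent.Helper74.SS.tJ7 Gn (Rl ⊕ Fin 0) Rl (Sum.elim RK (emp Gn 0)) RK
      (Equiv.sumEmpty Rl (Fin 0)) (fun j => by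
        rcases j with j | j
        · rfl
        · exact j.elim0)
    obtain ⟨b⟩ := Pool.Agent.Helper74.SS.tJ7 Gn (Rl ⊕ Fin 0) Rl (Sum.elim RL (emp Gn 0)) RL
      (Equiv.sumEmpty Rl (Fin 0)) (fun j => by
        rcases j with j | j
        · rfl
        · exact j.elim0)
    have := pathConn RL
    obtain ⟨f⟩ := wedge_inv (n := 1) ((a.symm.toHomotopyEquiv.trans e).trans b.toHomotopyEquiv)
      ⟨0, zero_mem_XX RK⟩ ⟨0, zero_mem_XX RL⟩ (fun _ => sp) (fun _ => sp)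
    exact one ((wedge_all RK RL 1 _ _ _ _).1 ⟨f⟩)
  · exact one h

/-- two and more spheres are enough -/
theorem pos2 (m : ℕ) : Nonempty (ContinuousMap.HomotopyEquiv ↥(XX (Sum.elim RK (emp Gn (2 + m))))
      ↥(XX (Sum.elim RL (emp Gn (2 + m))))) := by
  obtain ⟨e⟩ := Pool.Agent.Helper74.SS.tJ
  have := pathConn (Sum.elim RL fun _ : Fin 2 => ([] : Wd Gn))
  obtain ⟨f⟩ := wedge_inv (n := m) e ⟨0, zero_mem_XX _⟩ ⟨0, zero_mem_XX _⟩ (fun _ => sp)
    (fun _ => sp)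
  obtain ⟨g⟩ := (wedge_all _ _ m _ _ _ _).1 ⟨f⟩
  have key : ∀ R : Rl → Wd Gn, Nonempty
      (↥(XX (Sum.elim (Sum.elim R fun _ : Fin 2 => ([] : Wd Gn)) (emp Gn m))) ≃ₜ
        ↥(XX (Sum.elim R (emp Gn (2 + m))))) := by
    intro R
    refine Pool.Agent.Helper74.SS.tJ7 Gn ((Rl ⊕ Fin 2) ⊕ Fin m) (Rl ⊕ Fin (2 + m)) _ _
      ((Equiv.sumAssoc Rl (Fin 2) (Fin m)).trans
        (Equiv.sumCongr (Equiv.refl Rl) finSumFinEquiv)) fun j => ?_
    rcases j with (j | j) | j <;> rfl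
  obtain ⟨a⟩ := key RK
  obtain ⟨b⟩ := key RL
  exact ⟨(a.symm.toHomotopyEquiv.trans g).trans b.toHomotopyEquiv⟩

/-- the threshold -/
theorem threshold (n : ℕ) (k : ↥(XX RK)) (l : ↥(XX RL)) (s t : Fin n → S2) :
    Nonempty (ContinuousMap.HomotopyEquiv (Wq ↥(XX RK) (Fin n × S2) k (As s))
      (Wq ↥(XX RL) (Fin n × S2) l (As t))) ↔ 2 ≤ n := by
  rw [wedge_all]
  constructor
  · intro h
    by_contra hn
    exact neg01 n (by omega) h
  · intro hn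
    obtain ⟨m, rfl⟩ := Nat.exists_eq_add_of_le hn
    exact pos2 m

/-- the CW structures with the numbers of cells -/
theorem cw_count (R : Rl → Wd Gn) :
    ∃ (_ : Topology.CWComplex (univ : Set ↥(XX R))),
      Nat.card (Topology.CWComplex.cell (univ : Set ↥(XX R)) 0) = 1 ∧
      Nat.card (Topology.CWComplex.cell (univ : Set ↥(XX R)) 1) = 6 ∧
      Nat.card (Topology.CWComplex.cell (univ : Set ↥(XX R)) 2) = 10 ∧
      ∀ m : ℕ, 2 < m → IsEmpty (Topology.CWComplex.cell (univ : Set ↥(XX R)) m) := by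
  obtain ⟨c, hc⟩ := cw_univ Pool.Agent.Helper74.SS.tI1 Pool.Agent.Helper74.SS.tI2
    Pool.Agent.Helper74.SS.tC1 Pool.Agent.Helper74.SS.tC2 R
  refine ⟨c, ?_, ?_, ?_, ?_⟩
  · obtain ⟨e⟩ := hc 0
    rw [Nat.card_congr e]
    exact Nat.card_unique (α := Unit)
  · obtain ⟨e⟩ := hc 1
    rw [Nat.card_congr e]
    show Nat.card Gn = 6
    rw [Nat.card_eq_fintype_card]
    rfl
  · obtain ⟨e⟩ := hc 2
    rw [Nat.card_congr e]
    show Nat.card Rl = 10
    rw [Nat.card_eq_fintype_card]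
    rfl
  · intro m hm
    obtain ⟨e⟩ := hc m
    match m, hm, e with
    | (_ + 3), _, e => exact ⟨fun x => (show Empty from e x).elim⟩

end Pool.Agent.Helper18.OWN
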