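import Mathlib

/-!
Homotopy invariance of one-point unions: the quotient of `X ⊕ Y` in which a point `x` of `X` and the
points of a subset `A` of `Y` are identified depends, up to homotopy equivalence, only on the homotopy
type of `X` and the path component of `x`, if `(Y, A)` is a pair with a collar function.
-/

set_option autoImplicit false

open Set Topology

namespace Pool.Agent.Helper18.OWN

/-- `X ⊕ Y` with `x` and all points of `A` identified -/
abbrev Wq (X Y : Type) [TopologicalSpace X] [TopologicalSpace Y] (x : X) (A : Set Y) : Type :=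
  Quot (fun a b : X ⊕ Y => a = Sum.inl x ∧ ∃ y ∈ A, b = Sum.inr y)

/-- A collar: the region `u ≤ 1/2` is pushed into `A` by a homotopy of pairs. -/
structure Collar {Y : Type} [TopologicalSpace Y] (A : Set Y) where
  u : Y → ℝ
  cu : Continuous u
  u0 : ∀ y ∈ A, u y = 0
  θ : unitInterval × Y → Y
  cθ : Continuous θ
  θ0 : ∀ y, θ (0, y) = y
  θA : ∀ t, ∀ y ∈ A, θ (t, y) ∈ A
  θ1 : ∀ y, u y ≤ 1 / 2 → θ (1, y) ∈ A

section

variable {T X Y Z : Type} [TopologicalSpace T] [TopologicalSpace X] [TopologicalSpace Y]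
  [TopologicalSpace Z] {x : X} {A : Set Y}

omit [TopologicalSpace X] [TopologicalSpace Y] in
theorem W_sound {y : Y} (hy : y ∈ A) :
    (Quot.mk _ (Sum.inl x) : Wq X Y x A) = Quot.mk _ (Sum.inr y) :=
  Quot.sound ⟨rfl, y, hy, rfl⟩

theorem W_cont_prod [LocallyCompactSpace T] (F : T × Wq X Y x A → Z)
    (h1 : Continuous fun p : T × X => F (p.1, Quot.mk _ (Sum.inl p.2)))
    (h2 : Continuous fun p : T × Y => F (p.1, Quot.mk _ (Sum.inr p.2))) : Continuous F := by
  refine (isQuotientMap_quot_mk).continuous_lift_prod_right ?_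
  have h := (h1.sumElim h2).comp (Homeomorph.prodSumDistrib (X := T) (Y := X) (Z := Y)).continuous
  convert h using 1
  funext p
  obtain ⟨t, a | b⟩ := p <;> rfl

/-- map out of the quotient, with a parameter -/
def W_lift (g : T × X → Z) (q : T × Y → Z) (h : ∀ t, ∀ y ∈ A, g (t, x) = q (t, y)) :
    T × Wq X Y x A → Z := fun p =>
  Quot.lift (Sum.elim (fun a => g (p.1, a)) (fun b => q (p.1, b))) (by
    rintro a b ⟨rfl, y, hy, rfl⟩
    exact h p.1 y hy) p.2

theorem W_lift_cont [LocallyCompactSpace T] (g : T × X → Z) (q : T × Y → Z)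
    (h : ∀ t, ∀ y ∈ A, g (t, x) = q (t, y)) (hg : Continuous g) (hq : Continuous q) :
    Continuous (W_lift g q h) := by
  refine W_cont_prod _ ?_ ?_
  · exact hg
  · exact hq

/-- continuous map out of the quotient -/
def W_map (g : X → Z) (q : Y → Z) (h : ∀ y ∈ A, g x = q y) (hg : Continuous g)
    (hq : Continuous q) : C(Wq X Y x A, Z) where
  toFun := Quot.lift (Sum.elim g q) (by
    rintro a b ⟨rfl, y, hy, rfl⟩
    exact h y hy)
  continuous_toFun := continuous_quot_lift _ (hg.sumElim hq)

/-- homotopies of maps out of the quotient -/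
theorem W_homotopic (f0 f1 : C(Wq X Y x A, Z)) (g : unitInterval × X → Z)
    (q : unitInterval × Y → Z) (h : ∀ t, ∀ y ∈ A, g (t, x) = q (t, y)) (hg : Continuous g)
    (hq : Continuous q) (g0 : ∀ a, f0 (Quot.mk _ (Sum.inl a)) = g (0, a))
    (g1 : ∀ a, f1 (Quot.mk _ (Sum.inl a)) = g (1, a))
    (q0 : ∀ b, f0 (Quot.mk _ (Sum.inr b)) = q (0, b))
    (q1 : ∀ b, f1 (Quot.mk _ (Sum.inr b)) = q (1, b)) : f0.Homotopic f1 := by
  refine ⟨⟨⟨W_lift g q h, W_lift_cont g q h hg hq⟩, ?_, ?_⟩⟩
  · rintro ⟨a | b⟩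
    · exact (g0 a).symm
    · exact (q0 b).symm
  · rintro ⟨a | b⟩
    · exact (g1 a).symm
    · exact (q1 b).symm

end

/-- `f` is a homotopy equivalence -/
def IsHE {X Y : Type} [TopologicalSpace X] [TopologicalSpace Y] (f : C(X, Y)) : Prop :=
  ∃ g : C(Y, X), (g.comp f).Homotopic (ContinuousMap.id X) ∧
    (f.comp g).Homotopic (ContinuousMap.id Y)

theorem IsHE.nonempty {X Y : Type} [TopologicalSpace X] [TopologicalSpace Y] {f : C(X, Y)}
    (h : IsHE f) : Nonempty (ContinuousMap.HomotopyEquiv X Y) := by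
  obtain ⟨g, h1, h2⟩ := h
  exact ⟨⟨f, g, h1, h2⟩⟩

/-- two out of six -/
theorem IsHE_of_six {P Q R S : Type} [TopologicalSpace P] [TopologicalSpace Q]
    [TopologicalSpace R] [TopologicalSpace S] (f : C(P, Q)) (g : C(Q, R)) (k : C(R, S))
    (β : C(P, R)) (β' : C(Q, S)) (h : (g.comp f).Homotopic β) (h' : (k.comp g).Homotopic β')
    (hβ : IsHE β) (hβ' : IsHE β') : IsHE g := by
  obtain ⟨b, hb1, hb2⟩ := hβ
  obtain ⟨c, hc1, hc2⟩ := hβ'
  have hR : (g.comp (f.comp b)).Homotopic (ContinuousMap.id R) := by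
    have h1 : ((g.comp f).comp b).Homotopic (β.comp b) := h.comp (ContinuousMap.Homotopic.refl b)
    exact h1.trans hb2
  have hL : ((c.comp k).comp g).Homotopic (ContinuousMap.id Q) := by
    have h1 : (c.comp (k.comp g)).Homotopic (c.comp β') :=
      (ContinuousMap.Homotopic.refl c).comp h'
    exact h1.trans hc1
  refine ⟨f.comp b, ?_, hR⟩
  have e1 : (((c.comp k).comp g).comp ((f.comp b).comp g)).Homotopic
      ((ContinuousMap.id Q).comp ((f.comp b).comp g)) :=
    hL.comp (ContinuousMap.Homotopic.refl _)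
  have e2 : ((c.comp k).comp ((g.comp (f.comp b)).comp g)).Homotopic
      ((c.comp k).comp ((ContinuousMap.id R).comp g)) :=
    (ContinuousMap.Homotopic.refl _).comp (hR.comp (ContinuousMap.Homotopic.refl _))
  exact e1.symm.trans (e2.trans hL)

section main

variable {X X' Y : Type} [TopologicalSpace X] [TopologicalSpace X'] [TopologicalSpace Y]
  {A : Set Y}

/-- the whisker map on `Y`: the collar goes along the path `p`, the rest is stretched -/
noncomputable def whisk (c : Collar A) {Z : Type} (p : ℝ → Z) (q : Y → Z) (y : Y) : Z :=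
  if c.u y ≤ 1 / 2 then p (2 * c.u y) else q (c.θ (1, y))

theorem whisk_cont (c : Collar A) {T Z : Type} [TopologicalSpace T] [TopologicalSpace Z]
    (p : T → ℝ → Z) (q : T → Y → Z) (hp : Continuous fun s : T × ℝ => p s.1 s.2)
    (hq : Continuous fun s : T × Y => q s.1 s.2) (h : ∀ t, ∀ y ∈ A, q t y = p t 1) :
    Continuous fun s : T × Y => whisk c (p s.1) (q s.1) s.2 := by
  have hθ : Continuous fun s : T × Y => c.θ (1, s.2) :=
    c.cθ.comp (continuous_const.prodMk continuous_snd)
  refine Continuous.if_le ?_ ?_ (c.cu.comp continuous_snd) continuous_const ?_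
  · exact hp.comp (continuous_fst.prodMk (continuous_const.mul (c.cu.comp continuous_snd)))
  · exact hq.comp (continuous_fst.prodMk hθ)
  · intro s hs
    have hs' : c.u s.2 = 1 / 2 := hs
    have h2 : (2 : ℝ) * c.u s.2 = 1 := by rw [hs']; norm_num
    rw [h2, h s.1 _ (c.θ1 s.2 hs'.le)]

theorem whisk_cont' (c : Collar A) {Z : Type} [TopologicalSpace Z]
    (p : ℝ → Z) (q : Y → Z) (hp : Continuous p) (hq : Continuous q)
    (h : ∀ y ∈ A, q y = p 1) : Continuous (whisk c p q) := by
  have := whisk_cont (T := Unit) c (fun _ => p) (fun _ => q) (hp.comp continuous_snd)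
    (hq.comp continuous_snd) (fun _ => h)
  exact this.comp (continuous_const.prodMk continuous_id : Continuous fun y : Y => ((), y))

theorem whisk_A (c : Collar A) {Z : Type} (p : ℝ → Z) (q : Y → Z) (y : Y) (hy : y ∈ A) :
    whisk c p q y = p 0 := by
  unfold whisk
  rw [c.u0 y hy, if_pos (by norm_num), mul_zero]

/-- base point change along the path `γ` -/
noncomputable def bc (c : Collar A) (γ : ℝ → X) (hγ : Continuous γ) (x x' : X) (h0 : γ 0 = x)
    (h1 : γ 1 = x') : C(Wq X Y x A, Wq X Y x' A) :=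
  W_map (fun a => Quot.mk _ (Sum.inl a))
    (whisk c (fun s => Quot.mk _ (Sum.inl (γ s))) (fun y => Quot.mk _ (Sum.inr y)))
    (fun y hy => by rw [whisk_A c _ _ y hy, h0])
    (continuous_quot_mk.comp continuous_inl)
    (whisk_cont' c _ _ (continuous_quot_mk.comp (continuous_inl.comp hγ))
      (continuous_quot_mk.comp continuous_inr) (fun y hy => by
        rw [h1]
        exact (W_sound hy).symm))

theorem bc_inr (c : Collar A) (γ : ℝ → X) (hγ : Continuous γ) (x x' : X) (h0 : γ 0 = x)
    (h1 : γ 1 = x') (y : Y) : bc c γ hγ x x' h0 h1 (Quot.mk _ (Sum.inr y)) =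
      whisk c (fun s => (Quot.mk _ (Sum.inl (γ s)) : Wq X Y x' A))
        (fun y => Quot.mk _ (Sum.inr y)) y := rfl

theorem cont_I_mul {T : Type} [TopologicalSpace T] (f : T → unitInterval) (g : T → ℝ)
    (hf : Continuous f) (hg : Continuous g) : Continuous fun t => (f t : ℝ) * g t :=
  (continuous_subtype_val.comp hf).mul hg

/-- going forth and back is homotopic to the identity -/
theorem bc_bc (c : Collar A) (γ γ' : ℝ → X) (hγ : Continuous γ) (hγ' : Continuous γ') (x x' : X)
    (h0 : γ 0 = x) (h1 : γ 1 = x') (h0' : γ' 0 = x') (h1' : γ' 1 = x)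
    (hr : ∀ s, γ' s = γ (1 - s)) :
    ((bc c γ' hγ' x' x h0' h1').comp (bc c γ hγ x x' h0 h1)).Homotopic
      (ContinuousMap.id (Wq X Y x A)) := by
  have hθA : ∀ y ∈ A, c.θ (1, y) ∈ A := fun y hy => c.θA 1 y hy
  have cθ1 : Continuous fun y => c.θ (1, y) := c.cθ.comp (continuous_const.prodMk continuous_id)
  -- the map which is `inr (θ₁ θ₁ y)` on `Y`
  let m : C(Wq X Y x A, Wq X Y x A) := W_map (fun a => Quot.mk _ (Sum.inl a))
    (fun y => Quot.mk _ (Sum.inr (c.θ (1, c.θ (1, y)))))
    (fun y hy => W_sound (hθA _ (hθA y hy)))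
    (continuous_quot_mk.comp continuous_inl)
    (continuous_quot_mk.comp (continuous_inr.comp (cθ1.comp cθ1)))
  have hm1 : m.Homotopic ((bc c γ' hγ' x' x h0' h1').comp (bc c γ hγ x x' h0 h1)) := by
    refine W_homotopic _ _ (fun p => Quot.mk _ (Sum.inl p.2))
      (fun p => whisk c (fun s => (Quot.mk _ (Sum.inl (γ ((p.1 : ℝ) * s))) : Wq X Y x A))
        (whisk c (fun s => Quot.mk _ (Sum.inl (γ ((p.1 : ℝ) * (1 - s)))))
          (fun y => Quot.mk _ (Sum.inr y))) p.2) ?_ ?_ ?_ ?_ ?_ ?_ ?_
    · intro t y hy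
      show _ = whisk c _ _ y
      rw [whisk_A c _ _ y hy, mul_zero, h0]
    · exact continuous_quot_mk.comp (continuous_inl.comp continuous_snd)
    · refine whisk_cont (T := unitInterval) c
        (fun t s => (Quot.mk _ (Sum.inl (γ ((t : ℝ) * s))) : Wq X Y x A))
        (fun t => whisk c (fun s => Quot.mk _ (Sum.inl (γ ((t : ℝ) * (1 - s)))))
          (fun y => Quot.mk _ (Sum.inr y))) ?_ ?_ ?_
      · exact continuous_quot_mk.comp (continuous_inl.comp (hγ.comp
          (cont_I_mul _ _ continuous_fst continuous_snd)))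
      · refine whisk_cont (T := unitInterval) c
          (fun t s => (Quot.mk _ (Sum.inl (γ ((t : ℝ) * (1 - s)))) : Wq X Y x A))
          (fun _ y => Quot.mk _ (Sum.inr y)) ?_ ?_ ?_
        · exact continuous_quot_mk.comp (continuous_inl.comp (hγ.comp
            (cont_I_mul _ _ continuous_fst (continuous_const.sub continuous_snd))))
        · exact continuous_quot_mk.comp (continuous_inr.comp continuous_snd)
        · intro t y hy
          rw [sub_self, mul_zero, h0]
          exact (W_sound hy).symm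
      · intro t y hy
        rw [whisk_A c _ _ y hy, sub_zero]
    · intro a
      rfl
    · intro a
      rfl
    · intro b
      show (Quot.mk _ (Sum.inr (c.θ (1, c.θ (1, b)))) : Wq X Y x A) = whisk c _ _ b
      unfold whisk
      simp only [Set.Icc.coe_zero, zero_mul, h0]
      split_ifs with h2 h3
      · exact (W_sound (hθA _ (c.θ1 b h2))).symm
      · exact (W_sound (c.θ1 _ h3)).symm
      · rfl
    · intro b
      show (bc c γ' hγ' x' x h0' h1') (whisk c (fun s => Quot.mk _ (Sum.inl (γ s)))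
        (fun y => Quot.mk _ (Sum.inr y)) b) = whisk c _ _ b
      unfold whisk
      simp only [Set.Icc.coe_one, one_mul]
      split_ifs with h2 h3
      · rfl
      · rw [bc_inr]
        unfold whisk
        rw [if_pos h3]
        show (Quot.mk _ (Sum.inl (γ' (2 * c.u (c.θ (1, b))))) : Wq X Y x A) = _
        rw [hr]
      · rw [bc_inr]
        unfold whisk
        rw [if_neg h3]
  have hm2 : (ContinuousMap.id (Wq X Y x A)).Homotopic m := by
    refine W_homotopic _ _ (fun p => Quot.mk _ (Sum.inl p.2))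
      (fun p => Quot.mk _ (Sum.inr (c.θ (p.1, c.θ (p.1, p.2))))) ?_ ?_ ?_ ?_ ?_ ?_ ?_
    · intro t y hy
      exact W_sound (c.θA t _ (c.θA t y hy))
    · exact continuous_quot_mk.comp (continuous_inl.comp continuous_snd)
    · exact continuous_quot_mk.comp (continuous_inr.comp (c.cθ.comp
        (continuous_fst.prodMk c.cθ)))
    · intro a
      rfl
    · intro a
      rfl
    · intro b
      show (Quot.mk _ (Sum.inr b) : Wq X Y x A) = Quot.mk _ (Sum.inr (c.θ (0, c.θ (0, b))))
      rw [c.θ0, c.θ0]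
    · intro b
      rfl
  exact (hm2.trans hm1).symm

theorem bc_HE (c : Collar A) (γ : ℝ → X) (hγ : Continuous γ) (x x' : X)
    (h0 : γ 0 = x) (h1 : γ 1 = x') : IsHE (bc c γ hγ x x' h0 h1) := by
  have hγ' : Continuous fun s => γ (1 - s) := hγ.comp (continuous_const.sub continuous_id)
  have h0' : γ (1 - 0) = x' := by rw [sub_zero, h1]
  have h1' : γ (1 - 1) = x := by rw [sub_self, h0]
  refine ⟨bc c (fun s => γ (1 - s)) hγ' x' x h0' h1', ?_, ?_⟩
  · exact bc_bc c γ _ hγ hγ' x x' h0 h1 h0' h1' (fun _ => rfl)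
  · refine bc_bc c _ γ hγ' hγ x' x h0' h1' h0 h1 (fun s => ?_)
    show γ s = γ (1 - (1 - s))
    rw [sub_sub_cancel]

/-- the map induced by `f` -/
def ind (A : Set Y) (f : C(X, X')) (x : X) : C(Wq X Y x A, Wq X' Y (f x) A) :=
  W_map (fun a => Quot.mk _ (Sum.inl (f a))) (fun y => Quot.mk _ (Sum.inr y))
    (fun _ hy => W_sound hy)
    (continuous_quot_mk.comp (continuous_inl.comp f.continuous))
    (continuous_quot_mk.comp continuous_inr)

/-- the composition of two induced maps of homotopy inverse maps is a base point change -/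
theorem ind_ind (c : Collar A) (f : C(X, X')) (f' : C(X', X)) (x : X) (h : ℝ → X → X)
    (hh : Continuous fun p : ℝ × X => h p.1 p.2) (h0 : ∀ a, h 0 a = f' (f a))
    (h1 : ∀ a, h 1 a = a) (hγ : Continuous fun s : ℝ => h (1 - s) x) (e0 : h (1 - 0) x = x)
    (e1 : h (1 - 1) x = f' (f x)) :
    ((ind A f' (f x)).comp (ind A f x)).Homotopic
      (bc c (fun s => h (1 - s) x) hγ x (f' (f x)) e0 e1) := by
  have cθ1 : Continuous fun y => c.θ (1, y) := c.cθ.comp (continuous_const.prodMk continuous_id)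
  let m : C(Wq X Y x A, Wq X Y (f' (f x)) A) := W_map (fun a => Quot.mk _ (Sum.inl (f' (f a))))
    (fun y => Quot.mk _ (Sum.inr (c.θ (1, y))))
    (fun y hy => W_sound (c.θA 1 y hy))
    (continuous_quot_mk.comp (continuous_inl.comp (f'.continuous.comp f.continuous)))
    (continuous_quot_mk.comp (continuous_inr.comp cθ1))
  have hm1 : ((ind A f' (f x)).comp (ind A f x)).Homotopic m := by
    refine W_homotopic _ _ (fun p => Quot.mk _ (Sum.inl (f' (f p.2))))
      (fun p => Quot.mk _ (Sum.inr (c.θ (p.1, p.2)))) ?_ ?_ ?_ ?_ ?_ ?_ ?_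
    · intro t y hy
      exact W_sound (c.θA t y hy)
    · exact continuous_quot_mk.comp (continuous_inl.comp
        (f'.continuous.comp (f.continuous.comp continuous_snd)))
    · exact continuous_quot_mk.comp (continuous_inr.comp c.cθ)
    · intro a
      rfl
    · intro a
      rfl
    · intro b
      show (Quot.mk _ (Sum.inr b) : Wq X Y (f' (f x)) A) = Quot.mk _ (Sum.inr (c.θ (0, b)))
      rw [c.θ0]
    · intro b
      rfl
  have hm2 : m.Homotopic (bc c (fun s => h (1 - s) x) hγ x (f' (f x)) e0 e1) := by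
    refine W_homotopic _ _ (fun p => Quot.mk _ (Sum.inl (h (p.1 : ℝ) p.2)))
      (fun p => whisk c
        (fun s => (Quot.mk _ (Sum.inl (h ((p.1 : ℝ) * (1 - s)) x)) : Wq X Y (f' (f x)) A))
        (fun y => Quot.mk _ (Sum.inr y)) p.2) ?_ ?_ ?_ ?_ ?_ ?_ ?_
    · intro t y hy
      show _ = whisk c _ _ y
      rw [whisk_A c _ _ y hy, sub_zero, mul_one]
    · exact continuous_quot_mk.comp (continuous_inl.comp (hh.comp
        ((continuous_subtype_val.comp continuous_fst).prodMk continuous_snd)))
    · refine whisk_cont (T := unitInterval) c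
        (fun t s => (Quot.mk _ (Sum.inl (h ((t : ℝ) * (1 - s)) x)) : Wq X Y (f' (f x)) A))
        (fun _ y => Quot.mk _ (Sum.inr y)) ?_ ?_ ?_
      · exact continuous_quot_mk.comp (continuous_inl.comp (hh.comp
          ((cont_I_mul _ _ continuous_fst (continuous_const.sub continuous_snd)).prodMk
            continuous_const)))
      · exact continuous_quot_mk.comp (continuous_inr.comp continuous_snd)
      · intro t y hy
        rw [sub_self, mul_zero, h0]
        exact (W_sound hy).symm
    · intro a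
      show (Quot.mk _ (Sum.inl (f' (f a))) : Wq X Y (f' (f x)) A) = Quot.mk _ (Sum.inl (h _ a))
      rw [Set.Icc.coe_zero, h0]
    · intro a
      show (Quot.mk _ (Sum.inl a) : Wq X Y (f' (f x)) A) = Quot.mk _ (Sum.inl (h _ a))
      rw [Set.Icc.coe_one, h1]
    · intro b
      show (Quot.mk _ (Sum.inr (c.θ (1, b))) : Wq X Y (f' (f x)) A) = whisk c _ _ b
      unfold whisk
      simp only [Set.Icc.coe_zero, zero_mul, h0]
      split_ifs with h2
      · exact (W_sound (c.θ1 b h2)).symm
      · rfl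
    · intro b
      rw [bc_inr]
      unfold whisk
      simp only [Set.Icc.coe_one, one_mul]
  exact hm1.trans hm2

/-- a homotopy with real parameter -/
theorem homotopy_real (f g : C(X, X)) (H : f.Homotopic g) : ∃ h : ℝ → X → X,
    (Continuous fun p : ℝ × X => h p.1 p.2) ∧ (∀ a, h 0 a = f a) ∧ ∀ a, h 1 a = g a := by
  obtain ⟨F⟩ := H
  refine ⟨fun s a => F (Set.projIcc 0 1 zero_le_one s, a), ?_, ?_, ?_⟩
  · exact F.continuous.comp ((continuous_projIcc.comp continuous_fst).prodMk continuous_snd)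
  · intro a
    show F (Set.projIcc 0 1 zero_le_one 0, a) = f a
    rw [Set.projIcc_left]
    exact F.apply_zero a
  · intro a
    show F (Set.projIcc 0 1 zero_le_one 1, a) = g a
    rw [Set.projIcc_right]
    exact F.apply_one a

/-- Main theorem: homotopy invariance of the one-point union. -/
theorem wedge_congr (c : Collar A) (e : ContinuousMap.HomotopyEquiv X X') (x : X) (x' : X')
    (hj : Joined (e.toFun x) x') :
    Nonempty (ContinuousMap.HomotopyEquiv (Wq X Y x A) (Wq X' Y x' A)) := by
  obtain ⟨h, hh, h0, h1⟩ := homotopy_real _ _ e.left_inv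
  obtain ⟨k, hk, k0, k1⟩ := homotopy_real _ _ e.right_inv
  have hγ : Continuous fun s : ℝ => h (1 - s) x :=
    hh.comp ((continuous_const.sub continuous_id).prodMk continuous_const)
  have e0 : h (1 - 0) x = x := by rw [sub_zero, h1]; rfl
  have e1 : h (1 - 1) x = e.invFun (e.toFun x) := by rw [sub_self, h0]; rfl
  have hδ : Continuous fun s : ℝ => k (1 - s) (e.toFun x) :=
    hk.comp ((continuous_const.sub continuous_id).prodMk continuous_const)
  have d0 : k (1 - 0) (e.toFun x) = e.toFun x := by rw [sub_zero, k1]; rfl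
  have d1 : k (1 - 1) (e.toFun x) = e.toFun (e.invFun (e.toFun x)) := by rw [sub_self, k0]; rfl
  have hg : IsHE (ind A e.invFun (e.toFun x)) :=
    IsHE_of_six (ind A e.toFun x) (ind A e.invFun (e.toFun x)) (ind A e.toFun _) _ _
      (ind_ind c e.toFun e.invFun x h hh h0 h1 hγ e0 e1)
      (ind_ind c e.invFun e.toFun (e.toFun x) k hk k0 k1 hδ d0 d1)
      (bc_HE c _ hγ _ _ e0 e1) (bc_HE c _ hδ _ _ d0 d1)
  obtain ⟨a⟩ := hg.nonempty
  obtain ⟨b⟩ := (bc_HE (Y := Y) c _ hγ _ _ e0 e1).nonempty
  obtain ⟨p⟩ := hj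
  obtain ⟨d⟩ := (bc_HE (Y := Y) c p.extend p.continuous_extend _ _ p.extend_zero
    p.extend_one).nonempty
  exact ⟨(b.trans a.symm).trans d⟩

end main

end Pool.Agent.Helper18.OWN
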